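import Pool.Agent.Lib.MP_c80ac4_an.HS.Cut

/-! # Approximating the constant one off an arc of the circle -/

namespace Forcing.HS

open Complex Filter Topology Set

/-- On `K` the constant `1` is, up to an arbitrarily small error, a fixed combination of the powers
`z, …, z ^ s` plus a trigonometric polynomial with absolute coefficient sum at most `γ`. -/
def Approx (K : Set ℂ) (s : ℕ) (h : ℕ → ℂ) (γ : ℝ) : Prop :=
  ∀ ε : ℝ, 0 < ε → ∃ (B : Finset ℤ) (ρ : ℤ → ℂ), ∑ b ∈ B, ‖ρ b‖ ≤ γ ∧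
    ∀ z ∈ K, ‖1 - ∑ a ∈ Finset.Icc 1 s, h a * z ^ a - ∑ b ∈ B, ρ b * z ^ b‖ ≤ ε

lemma norm_exp_sub_one_sq (t : ℝ) : ‖Complex.exp (t * I) - 1‖ ^ 2 = 2 - 2 * Real.cos t := by
  rw [Complex.sq_norm, Complex.normSq_apply, Complex.exp_mul_I]
  simp only [Complex.sub_re, Complex.add_re, Complex.mul_re, Complex.I_re, Complex.I_im,
    Complex.one_re, Complex.sub_im, Complex.add_im, Complex.mul_im, Complex.one_im,
    ← Complex.ofReal_cos, ← Complex.ofReal_sin, Complex.ofReal_re, Complex.ofReal_im]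
  have := Real.sin_sq_add_cos_sq t
  ring_nf
  nlinarith

lemma norm_sub_sum_le {ι : Type*} [DecidableEq ι] {f : ι → ℂ} {g : ι → ℝ} (hg : Summable g)
    (hfg : ∀ i, ‖f i‖ ≤ g i) {a : ℂ} (hf : HasSum f a) (B : Finset ι) :
    ‖a - ∑ b ∈ B, f b‖ ≤ ∑' i, g i - ∑ b ∈ B, g b := by
  have h1 : Tendsto (fun B' : Finset ι => ‖∑ b ∈ B', f b - ∑ b ∈ B, f b‖) atTop
      (𝓝 ‖a - ∑ b ∈ B, f b‖) := ((hf : Tendsto _ _ _).sub_const _).norm
  refine le_of_tendsto h1 ?_
  filter_upwards [eventually_ge_atTop B] with B' hB'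
  have hg0 : ∀ i, 0 ≤ g i := fun i => (norm_nonneg _).trans (hfg i)
  have e1 : ∑ b ∈ B', f b - ∑ b ∈ B, f b = ∑ b ∈ B' \ B, f b := by
    rw [← Finset.sum_sdiff hB']; ring
  have e2 : ∑ b ∈ B', g b - ∑ b ∈ B, g b = ∑ b ∈ B' \ B, g b := by
    rw [← Finset.sum_sdiff hB']; ring
  have e3 : ∑ b ∈ B', g b ≤ ∑' i, g i := hg.sum_le_tsum _ fun i _ => hg0 i
  calc ‖∑ b ∈ B', f b - ∑ b ∈ B, f b‖ = ‖∑ b ∈ B' \ B, f b‖ := by rw [e1]
    _ ≤ ∑ b ∈ B' \ B, ‖f b‖ := norm_sum_le _ _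
    _ ≤ ∑ b ∈ B' \ B, g b := Finset.sum_le_sum fun i _ => hfg i
    _ = ∑ b ∈ B', g b - ∑ b ∈ B, g b := e2.symm
    _ ≤ _ := by linarith

/-- The cutoff function. -/
lemma exists_cutoff {η : ℝ} (hη : 0 < η) :
    ∃ χ : ℝ → ℂ, ContDiff ℝ 2 χ ∧ Function.Periodic χ (2 * Real.pi) ∧
      (∀ t : ℝ, η ≤ ‖Complex.exp (t * I) - 1‖ → χ t = 1) ∧
      (∀ t : ℝ, ‖Complex.exp (t * I) - 1‖ < η / 2 → χ t = 0 ∧ deriv χ t = 0 ∧
        deriv (deriv χ) t = 0) := by
  set u : ℝ → ℝ := fun t => (2 - 2 * Real.cos t - η ^ 2 / 4) / (3 * η ^ 2 / 4) with hu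
  set χ : ℝ → ℂ := fun t => ((Real.smoothTransition (u t) : ℝ) : ℂ) with hχ
  have huc : ContDiff ℝ 2 u := by
    rw [hu]
    have := Real.contDiff_cos (n := 2)
    fun_prop
  have hsq : (0 : ℝ) < 3 * η ^ 2 / 4 := by positivity
  refine ⟨χ, ?_, ?_, ?_, ?_⟩
  · exact Complex.ofRealCLM.contDiff.comp ((Real.smoothTransition.contDiff (n := 2)).comp huc)
  · intro t
    simp only [hχ, hu, Real.cos_add_two_pi]
  · intro t ht
    have h1 : 1 ≤ u t := by
      rw [hu]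
      simp only
      rw [le_div_iff₀ hsq]
      have h2 := norm_exp_sub_one_sq t
      have h3 : η ^ 2 ≤ ‖Complex.exp (t * I) - 1‖ ^ 2 := by gcongr
      linarith
    simp only [hχ, Real.smoothTransition.one_of_one_le h1, Complex.ofReal_one]
  · intro t ht
    have h1 : u t < 0 := by
      rw [hu]
      simp only
      apply div_neg_of_neg_of_pos _ hsq
      have h2 := norm_exp_sub_one_sq t
      have h3 : ‖Complex.exp (t * I) - 1‖ ^ 2 < (η / 2) ^ 2 := by gcongr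
      nlinarith
    have h2 : ∀ᶠ x in 𝓝 t, u x < 0 := huc.continuous.continuousAt.eventually_lt_const h1
    have h3 : χ =ᶠ[𝓝 t] fun _ => (0 : ℂ) := by
      filter_upwards [h2] with x hx
      simp only [hχ, Real.smoothTransition.zero_of_nonpos hx.le, Complex.ofReal_zero]
    have h4 : deriv χ =ᶠ[𝓝 t] deriv (fun _ => (0 : ℂ)) := h3.deriv
    have h5 : deriv (deriv χ) =ᶠ[𝓝 t] deriv (deriv (fun _ => (0 : ℂ))) := h4.deriv
    have h6 : deriv (fun _ : ℝ => (0 : ℂ)) = fun _ => 0 := by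
      funext x
      simp
    refine ⟨h3.eq_of_nhds, ?_, ?_⟩
    · rw [h4.eq_of_nhds, h6]
    · rw [h5.eq_of_nhds, h6, h6]

lemma exists_series {η : ℝ} (hη : 0 < η) (hη1 : η ≤ 1) :
    ∃ (s : ℕ) (f : ℕ → ℂ) (ρ : ℤ → ℂ), (Summable fun b => ‖ρ b‖) ∧ ∑' b, ‖ρ b‖ ≤ 1 / 2 ∧
      ∀ z : ℂ, ‖z‖ = 1 → η ≤ ‖z - 1‖ →
        HasSum (fun b : ℤ => ρ b * z ^ b) (1 - ∑ a ∈ Finset.Icc 1 s, f a * z ^ a) := by
  set r : ℝ := 1 - η ^ 2 / 64 with hr
  have hη2 : η ^ 2 ≤ η := by nlinarith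
  have hr0 : 0 < r := by rw [hr]; nlinarith
  have hr1 : r < 1 := by rw [hr]; nlinarith [sq_pos_of_pos hη]
  obtain ⟨χ, x1, x2, x3, x4⟩ := exists_cutoff hη
  set p : ℝ → ℂ := fun t => psi r (Complex.exp (t * I)) with hp
  have hpc : ContDiff ℝ 2 p := by
    have e0 : ContDiff ℝ 2 (fun t : ℝ => Complex.exp (t * I)) := by
      have : ContDiff ℝ 2 (fun t : ℝ => (t : ℂ)) := Complex.ofRealCLM.contDiff
      exact (this.mul contDiff_const).cexp
    have : p = fun t : ℝ => 2 * r * Complex.exp (t * I) / (1 - r * Complex.exp (t * I)) := rfl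
    have e1 : ContDiff ℝ 2 (fun t : ℝ => 2 * (r : ℂ) * Complex.exp (t * I)) :=
      contDiff_const.mul e0
    have e2 : ContDiff ℝ 2 (fun t : ℝ => (r : ℂ) * Complex.exp (t * I)) :=
      contDiff_const.mul e0
    have e3 : ContDiff ℝ 2 (fun t : ℝ => 1 - (r : ℂ) * Complex.exp (t * I)) :=
      contDiff_const.sub e2
    rw [this]
    simp only [div_eq_mul_inv]
    refine e1.mul (e3.inv fun t => ?_)
    exact one_sub_ne hr0.le (by rw [Complex.norm_exp_ofReal_mul_I]; linarith)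
  have hpp : Function.Periodic p (2 * Real.pi) := by
    intro t
    have : Complex.exp (((t + 2 * Real.pi : ℝ) : ℂ) * I) = Complex.exp (t * I) := by
      push_cast
      rw [add_mul]
      exact Complex.exp_periodic _
    simp only [hp, this]
  have hsmall : ∀ t, (p t).re ≤ -1 / 2 ∨ (χ t = 0 ∧ deriv χ t = 0 ∧ deriv (deriv χ) t = 0) := by
    intro t
    rcases lt_or_ge ‖Complex.exp (t * I) - 1‖ (η / 2) with h | h
    · exact Or.inr (x4 t h)
    · exact Or.inl (re_psi_le hη hη1 (Complex.norm_exp_ofReal_mul_I t) h)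
  obtain ⟨M, c, c1, c2, c3⟩ := exists_cut x1 hpc x2 hpp hsmall (show (0 : ℝ) < 1 / 4 by norm_num)
  obtain ⟨f, f0, f1, f2⟩ := exp_psi_series hr0 hr1 M
  obtain ⟨s, hs⟩ : ∃ s : ℕ, ∑' n, ‖f (n + (s + 1))‖ ≤ 1 / 4 := by
    have h1 := tendsto_sum_nat_add fun n => ‖f n‖
    have h2 := (tendsto_add_atTop_nat 1).eventually (h1.eventually_le_const
      (show (0 : ℝ) < 1 / 4 by norm_num))
    exact h2.exists
  set g : ℤ → ℂ := fun b => if (s : ℤ) < b then f b.toNat else 0 with hg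
  set e : ℕ → ℤ := fun n => ((n + (s + 1) : ℕ) : ℤ) with he
  have hinj : Function.Injective e := by
    intro a b hab
    simp only [he] at hab
    omega
  have hge : ∀ n, g (e n) = f (n + (s + 1)) := by
    intro n
    simp only [hg, he]
    rw [if_pos (by push_cast; omega), Int.toNat_natCast]
  have hgr : ∀ b, b ∉ range e → g b = 0 := by
    intro b hb
    simp only [hg]
    rw [if_neg]
    intro hlt
    apply hb
    refine ⟨(b - (s + 1)).toNat, ?_⟩
    simp only [he]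
    omega
  have hgs : HasSum (fun b => ‖g b‖) (∑' n, ‖f (n + (s + 1))‖) := by
    refine (hinj.hasSum_iff (fun b hb => by rw [hgr b hb, norm_zero])).1 ?_
    have : (fun b => ‖g b‖) ∘ e = fun n => ‖f (n + (s + 1))‖ := by
      funext n
      simp only [Function.comp, hge]
    rw [this]
    exact ((summable_nat_add_iff (s + 1)).2 f1).hasSum
  refine ⟨s, fun a => - f a, fun b => c b - g b, ?_, ?_, ?_⟩
  · exact Summable.of_nonneg_of_le (fun b => norm_nonneg _) (fun b => norm_sub_le _ _)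
      (c1.add hgs.summable)
  · calc ∑' b, ‖c b - g b‖ ≤ ∑' b, (‖c b‖ + ‖g b‖) := by
          refine Summable.tsum_le_tsum (fun b => norm_sub_le _ _) ?_ (c1.add hgs.summable)
          exact Summable.of_nonneg_of_le (fun b => norm_nonneg _) (fun b => norm_sub_le _ _)
            (c1.add hgs.summable)
      _ = ∑' b, ‖c b‖ + ∑' b, ‖g b‖ := c1.tsum_add hgs.summable
      _ ≤ 1 / 4 + 1 / 4 := by rw [hgs.tsum_eq]; exact add_le_add c2 hs
      _ = 1 / 2 := by norm_num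
  · intro z hz hz1
    have hzt : Complex.exp ((Complex.arg z : ℝ) * I) = z := by
      have := Complex.norm_mul_exp_arg_mul_I z
      rwa [hz, Complex.ofReal_one, one_mul] at this
    have h1 := c3 (Complex.arg z)
    rw [hzt, x3 _ (by rw [hzt]; exact hz1), one_mul] at h1
    have h2 : p (Complex.arg z) = psi r z := by simp only [hp, hzt]
    rw [h2] at h1
    have h3 := f2 z hz
    have h4 : HasSum (fun b => g b * z ^ b)
        (Complex.exp (M * psi r z) - ∑ i ∈ Finset.range (s + 1), f i * z ^ i) := by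
      refine (hinj.hasSum_iff (fun b hb => by rw [hgr b hb, zero_mul])).1 ?_
      have : (fun b : ℤ => g b * z ^ b) ∘ e = fun n => f (n + (s + 1)) * z ^ (n + (s + 1)) := by
        funext n
        show g (e n) * z ^ (e n) = _
        rw [hge]
        simp only [he, zpow_natCast]
      rw [this]
      exact (hasSum_nat_add_iff' (s + 1)).2 h3
    have h5 := h1.sub h4
    have h6 : Complex.exp (M * psi r z) - (Complex.exp (M * psi r z) -
        ∑ i ∈ Finset.range (s + 1), f i * z ^ i) =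
        1 - ∑ a ∈ Finset.Icc 1 s, -f a * z ^ a := by
      have h7 : Finset.range (s + 1) = insert 0 (Finset.Icc 1 s) := by
        ext x
        simp only [Finset.mem_range, Finset.mem_insert, Finset.mem_Icc]
        omega
      rw [h7, Finset.sum_insert (by simp), f0, pow_zero]
      simp only [neg_mul, Finset.sum_neg_distrib]
      ring
    rw [h6] at h5
    have h8 : (fun b : ℤ => (c b - g b) * z ^ b) = fun b => c b * z ^ b - g b * z ^ b := by
      funext b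
      ring
    rw [h8]
    exact h5

/-- **Off an arc the constant one can be replaced.** -/
theorem approx_arc {z₀ : ℂ} (h0 : ‖z₀‖ = 1) {η : ℝ} (hη : 0 < η) :
    ∃ (s : ℕ) (h : ℕ → ℂ) (γ : ℝ), 0 ≤ γ ∧ γ < 1 ∧
      Approx {z | ‖z‖ = 1 ∧ η ≤ ‖z - z₀‖} s h γ := by
  obtain ⟨s, f, ρ, h1, h2, h3⟩ := exists_series (η := min η 1) (lt_min hη one_pos)
    (min_le_right _ _)
  have hz0 : z₀ ≠ 0 := by
    intro h
    rw [h, norm_zero] at h0
    norm_num at h0
  have hinv : ‖z₀⁻¹‖ = 1 := by rw [norm_inv, h0, inv_one]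
  refine ⟨s, fun a => f a * z₀⁻¹ ^ a, 1 / 2, by norm_num, by norm_num, fun ε hε => ?_⟩
  have h4 : Tendsto (fun B : Finset ℤ => ∑ b ∈ B, ‖ρ b‖) atTop (𝓝 (∑' b, ‖ρ b‖)) := h1.hasSum
  obtain ⟨B, hB⟩ := (h4.eventually_const_lt (show ∑' b, ‖ρ b‖ - ε < ∑' b, ‖ρ b‖ by
    linarith)).exists
  refine ⟨B, fun b => ρ b * z₀⁻¹ ^ b, ?_, ?_⟩
  · calc ∑ b ∈ B, ‖ρ b * z₀⁻¹ ^ b‖ = ∑ b ∈ B, ‖ρ b‖ := by
          refine Finset.sum_congr rfl fun b _ => ?_
          rw [norm_mul, norm_zpow, hinv, one_zpow, mul_one]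
      _ ≤ ∑' b, ‖ρ b‖ := h1.sum_le_tsum _ fun i _ => norm_nonneg _
      _ ≤ 1 / 2 := h2
  · rintro z ⟨hz, hz1⟩
    have hw : ‖z₀⁻¹ * z‖ = 1 := by rw [norm_mul, hinv, hz, one_mul]
    have hw1 : min η 1 ≤ ‖z₀⁻¹ * z - 1‖ := by
      have : z₀⁻¹ * z - 1 = z₀⁻¹ * (z - z₀) := by field_simp
      rw [this, norm_mul, hinv, one_mul]
      exact (min_le_left _ _).trans hz1
    have h5 := h3 _ hw hw1
    have h6 := norm_sub_sum_le h1 (fun b => ?_) h5 B
    · have e1 : ∑ a ∈ Finset.Icc 1 s, f a * z₀⁻¹ ^ a * z ^ a =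
          ∑ a ∈ Finset.Icc 1 s, f a * (z₀⁻¹ * z) ^ a :=
        Finset.sum_congr rfl fun a _ => by rw [mul_pow, mul_assoc]
      have e2 : ∑ b ∈ B, ρ b * z₀⁻¹ ^ b * z ^ b = ∑ b ∈ B, ρ b * (z₀⁻¹ * z) ^ b :=
        Finset.sum_congr rfl fun a _ => by rw [mul_zpow, mul_assoc]
      rw [e1, e2]
      linarith
    · rw [norm_mul, norm_zpow, hw, one_zpow, mul_one]

end Forcing.HS
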