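import Pool.Agent.Lib.MP_c80ac4_an.HM.Defs
import Pool.Agent.Lib.MP_c80ac4_an.HS.Approx

/-! # The replacement method: sets with sparse powers fail the Sidon inequalities -/

namespace Forcing.HS

open Complex Filter Topology Set Metric

lemma lac_shift {q q' : ℝ} (hqq : q < q') {N N' : ℕ} {S : Finset ℕ}
    (hS : LacSet q' N (S : Set ℕ)) (c : ℕ → ℂ) (K : ℤ) (h1 : (q - 1) * K ≤ (q' - q) * N)
    (h2 : (N' : ℤ) ≤ N + K) (h3 : 1 ≤ N') :
    ∃ (S' : Finset ℕ) (c' : ℕ → ℂ), LacSet q N' (S' : Set ℕ) ∧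
      ∀ z : ℂ, z ≠ 0 → ∑ n ∈ S', c' n * z ^ n = z ^ K * ∑ n ∈ S, c n * z ^ n := by
  classical
  have hpos : ∀ n ∈ S, (N' : ℤ) ≤ n + K := by
    intro n hn
    have := (hS.1 n (by simpa using hn)).2
    omega
  have hcast : ∀ n ∈ S, ((((n : ℤ) + K).toNat : ℕ) : ℤ) = n + K := by
    intro n hn
    have := hpos n hn
    exact Int.toNat_of_nonneg (by omega)
  have hcastR : ∀ n ∈ S, ((((n : ℤ) + K).toNat : ℕ) : ℝ) = n + K := by
    intro n hn
    have := hcast n hn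
    exact_mod_cast this
  refine ⟨S.image fun n : ℕ => ((n : ℤ) + K).toNat, fun m => c ((m : ℤ) - K).toNat, ⟨?_, ?_⟩, ?_⟩
  · intro m hm
    simp only [Finset.coe_image, Set.mem_image, Finset.mem_coe] at hm
    obtain ⟨n, hn, rfl⟩ := hm
    have h4 := hpos n hn
    have h5 := hcast n hn
    omega
  · intro m hm m' hm' hmm
    simp only [Finset.coe_image, Set.mem_image, Finset.mem_coe] at hm hm'
    obtain ⟨n, hn, rfl⟩ := hm
    obtain ⟨n', hn', rfl⟩ := hm'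
    have h4 := hcast n hn
    have h4' := hcast n' hn'
    have hlt : n < n' := by omega
    have h5 := hS.2 n (by simpa using hn) n' (by simpa using hn') hlt
    have h6 : (N : ℝ) ≤ n := by exact_mod_cast (hS.1 n (by simpa using hn)).2
    rw [hcastR n hn, hcastR n' hn']
    have h7 : (q' - q) * N ≤ (q' - q) * n := mul_le_mul_of_nonneg_left h6 (by linarith)
    nlinarith
  · intro z hz
    rw [Finset.sum_image, Finset.mul_sum]
    · refine Finset.sum_congr rfl fun n hn => ?_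
      have h4 := hcast n hn
      have h5 : ((((((n : ℤ) + K).toNat : ℕ) : ℤ) - K).toNat) = n := by
        rw [h4]
        simp
      beta_reduce
      rw [h5]
      have h6 : z ^ (((n : ℤ) + K).toNat) = z ^ K * z ^ n := by
        rw [← zpow_natCast z (((n : ℤ) + K).toNat), h4, zpow_add₀ hz, zpow_natCast]
        ring
      rw [h6]
      ring
    · intro a ha b hb hab
      have h4 := hcast a ha
      have h5 := hcast b hb
      simp only at hab
      omega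

lemma lac_union {q : ℝ} {N N' : ℕ} {S S' : Finset ℕ} (hS : LacSet q N (S : Set ℕ))
    (hS' : LacSet q N' (S' : Set ℕ)) (hN : N ≤ N') (c c' : ℕ → ℂ)
    (h1 : ∀ m ∈ S, m < N' ∧ q * m ≤ N') :
    ∃ (S'' : Finset ℕ) (c'' : ℕ → ℂ), LacSet q N (S'' : Set ℕ) ∧
      (∀ n ∈ S, n ∈ S'' ∧ c'' n = c n) ∧
      ∀ z : ℂ, ∑ n ∈ S'', c'' n * z ^ n =
        ∑ n ∈ S, c n * z ^ n + ∑ n ∈ S', c' n * z ^ n := by
  classical
  have hdis : Disjoint S S' := by
    rw [Finset.disjoint_left]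
    intro a ha ha'
    have h2 := (h1 a ha).1
    have h3 := (hS'.1 a (by simpa using ha')).2
    omega
  refine ⟨S ∪ S', fun n => if n ∈ S then c n else c' n, ⟨?_, ?_⟩, ?_, ?_⟩
  · intro m hm
    simp only [Finset.coe_union, Set.mem_union, Finset.mem_coe] at hm
    rcases hm with hm | hm
    · exact hS.1 m (by simpa using hm)
    · have := hS'.1 m (by simpa using hm)
      exact ⟨this.1, hN.trans this.2⟩
  · intro m hm n hn hmn
    simp only [Finset.coe_union, Set.mem_union, Finset.mem_coe] at hm hn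
    rcases hm with hm | hm <;> rcases hn with hn | hn
    · exact hS.2 m (by simpa using hm) n (by simpa using hn) hmn
    · have h2 := (h1 m hm).2
      have h3 := (hS'.1 n (by simpa using hn)).2
      have h4 : (N' : ℝ) ≤ n := by exact_mod_cast h3
      linarith
    · have h2 := (h1 n hn).1
      have h3 := (hS'.1 m (by simpa using hm)).2
      omega
    · exact hS'.2 m (by simpa using hm) n (by simpa using hn) hmn
  · intro n hn
    exact ⟨Finset.mem_union_left _ hn, by simp [hn]⟩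
  · intro z
    rw [Finset.sum_union hdis]
    congr 1
    · exact Finset.sum_congr rfl fun n hn => by simp [hn]
    · refine Finset.sum_congr rfl fun n hn => ?_
      have : n ∉ S := fun h => Finset.disjoint_left.1 hdis h hn
      simp [this]

/-- The constant one is approximated on `E` up to `δ` by lacunary polynomials of all ratios
below `Q` and with frequencies as large as we please. -/
def Good (E : Set ℂ) (Q δ : ℝ) : Prop :=
  ∀ q : ℝ, 1 < q → q < Q → ∀ (N : ℕ) (ε : ℝ), 0 < ε → ∃ (S : Finset ℕ) (c : ℕ → ℂ),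
    LacSet q N (S : Set ℕ) ∧ ∀ z ∈ E, ‖1 - ∑ n ∈ S, c n * z ^ n‖ ≤ δ + ε

lemma good_one (E : Set ℂ) (Q : ℝ) : Good E Q 1 := by
  intro q _ _ N ε hε
  refine ⟨∅, fun _ => 0, ⟨by simp, by simp⟩, fun z _ => ?_⟩
  simp
  linarith

lemma insert_blocks {E : Set ℂ} (hE : E ⊆ sphere 0 1) {Q δ : ℝ} (hG : Good E Q δ) {q : ℝ}
    (hq : 1 < q) (hqQ : q < Q) {N : ℕ} {S₀ : Finset ℕ} (hS₀ : LacSet q N (S₀ : Set ℕ))
    (c₀ : ℕ → ℂ) (m : ℕ) (ρ : ℤ → ℂ) {ε : ℝ} (hε : 0 < ε) (B : Finset ℤ) :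
    ∃ (S : Finset ℕ) (c : ℕ → ℂ), LacSet q N (S : Set ℕ) ∧ ∀ z ∈ E,
      ‖(∑ n ∈ S₀, c₀ n * z ^ n + ∑ b ∈ B, ρ b * (z ^ m) ^ b) - ∑ n ∈ S, c n * z ^ n‖ ≤
        (∑ b ∈ B, ‖ρ b‖) * (δ + ε) := by
  classical
  induction B using Finset.induction_on with
  | empty =>
    refine ⟨S₀, c₀, hS₀, fun z _ => ?_⟩
    simp
  | insert b B hb ih =>
    obtain ⟨S, c, hS, hc⟩ := ih
    set q' : ℝ := (q + Q) / 2 with hq'
    have hqq' : q < q' := by rw [hq']; linarith
    have hq'Q : q' < Q := by rw [hq']; linarith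
    set mx : ℕ := S.sup id with hmx
    set N' : ℕ := N + (mx + 1) + ⌈q * mx⌉₊ with hN'
    set K : ℤ := m * b with hK
    set N'' : ℕ := N' + K.natAbs + ⌈(q - 1) * K / (q' - q)⌉₊ with hN''
    obtain ⟨S₁, c₁, hS₁, hc₁⟩ := hG q' (hq.trans hqq') hq'Q N'' ε hε
    obtain ⟨S₂, c₂, hS₂, hc₂⟩ := lac_shift hqq' hS₁ c₁ K (N' := N') (by
      have h1 : (q - 1) * K / (q' - q) ≤ (⌈(q - 1) * K / (q' - q)⌉₊ : ℝ) := Nat.le_ceil _
      have h2 : (⌈(q - 1) * K / (q' - q)⌉₊ : ℝ) ≤ N'' := by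
        have : ⌈(q - 1) * K / (q' - q)⌉₊ ≤ N'' := by omega
        exact_mod_cast this
      have h3 := h1.trans h2
      rw [div_le_iff₀ (by linarith)] at h3
      linarith) (by omega) (by omega)
    obtain ⟨S₃, c₃, hS₃, -, hc₃⟩ := lac_union hS hS₂ (by omega) c (fun n => ρ b * c₂ n) (by
      intro k hk
      have h1 : k ≤ mx := Finset.le_sup (f := id) hk
      refine ⟨by omega, ?_⟩
      have h2 : q * (k : ℝ) ≤ q * mx := by
        have : (k : ℝ) ≤ mx := by exact_mod_cast h1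
        nlinarith
      have h3 : q * (mx : ℝ) ≤ (⌈q * (mx : ℝ)⌉₊ : ℝ) := Nat.le_ceil _
      have h4 : (⌈q * (mx : ℝ)⌉₊ : ℝ) ≤ N' := by
        have : ⌈q * (mx : ℝ)⌉₊ ≤ N' := by omega
        exact_mod_cast this
      linarith)
    refine ⟨S₃, c₃, hS₃, fun z hz => ?_⟩
    have hz1 : ‖z‖ = 1 := by simpa using hE hz
    have hz0 : z ≠ 0 := by
      intro h
      rw [h, norm_zero] at hz1
      norm_num at hz1
    have e1 : ∑ n ∈ S₂, ρ b * c₂ n * z ^ n = ρ b * (z ^ K * ∑ n ∈ S₁, c₁ n * z ^ n) := by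
      rw [← hc₂ z hz0, Finset.mul_sum]
      exact Finset.sum_congr rfl fun n _ => by ring
    have e2 : (z ^ m) ^ b = z ^ K := by
      rw [hK, zpow_mul, zpow_natCast]
    rw [hc₃ z, e1, Finset.sum_insert hb, Finset.sum_insert hb, e2]
    have e3 : ∑ n ∈ S₀, c₀ n * z ^ n + (ρ b * z ^ K + ∑ x ∈ B, ρ x * (z ^ m) ^ x) -
        (∑ n ∈ S, c n * z ^ n + ρ b * (z ^ K * ∑ n ∈ S₁, c₁ n * z ^ n)) =
        (∑ n ∈ S₀, c₀ n * z ^ n + ∑ x ∈ B, ρ x * (z ^ m) ^ x - ∑ n ∈ S, c n * z ^ n) +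
        ρ b * z ^ K * (1 - ∑ n ∈ S₁, c₁ n * z ^ n) := by ring
    rw [e3]
    refine (norm_add_le _ _).trans ?_
    have e4 : ‖ρ b * z ^ K * (1 - ∑ n ∈ S₁, c₁ n * z ^ n)‖ ≤ ‖ρ b‖ * (δ + ε) := by
      rw [norm_mul, norm_mul, norm_zpow, hz1, one_zpow, mul_one]
      exact mul_le_mul_of_nonneg_left (hc₁ z hz) (norm_nonneg _)
    have e5 := hc z hz
    linarith

lemma lacSet_mono_ratio {q q' : ℝ} (hqq : q ≤ q') {N : ℕ} {L : Set ℕ} (h : LacSet q' N L) :
    LacSet q N L := by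
  refine ⟨h.1, fun m hm n hn hmn => ?_⟩
  have h1 := h.2 m hm n hn hmn
  have h2 : q * (m : ℝ) ≤ q' * m := mul_le_mul_of_nonneg_right hqq (Nat.cast_nonneg m)
  exact h2.trans h1

lemma good_step {E : Set ℂ} (hE : E ⊆ sphere 0 1) {Q γ : ℝ} (hA : TwoSided E Q γ) (hγ : γ < 1)
    {δ : ℝ} (hδ : 0 ≤ δ) (hG : Good E Q δ) : Good E Q (γ * δ) := by
  classical
  intro q hq hqQ N ε hε
  obtain ⟨S₀, c₀, B, ρ, h0, h1, h2⟩ := hA N (ε / 2) (by linarith)
  obtain ⟨S, c, hS, hc⟩ := insert_blocks hE hG hq hqQ (lacSet_mono_ratio hqQ.le h0) c₀ 1 ρ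
    (half_pos hε) B
  refine ⟨S, c, hS, fun z hz => ?_⟩
  have h3 := hc z hz
  simp only [pow_one] at h3
  have h4 := h2 _ hz
  have e2 : (1 : ℂ) - ∑ n ∈ S, c n * z ^ n =
      (1 - ∑ n ∈ S₀, c₀ n * z ^ n - ∑ b ∈ B, ρ b * z ^ b) +
      (∑ n ∈ S₀, c₀ n * z ^ n + ∑ b ∈ B, ρ b * z ^ b - ∑ n ∈ S, c n * z ^ n) := by ring
  rw [e2]
  refine (norm_add_le _ _).trans ?_
  have h5 : (∑ b ∈ B, ‖ρ b‖) * (δ + ε / 2) ≤ γ * (δ + ε / 2) :=
    mul_le_mul_of_nonneg_right h1 (by linarith)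
  have h6 : γ * (ε / 2) ≤ ε / 2 := by nlinarith
  nlinarith

lemma twoSided_nonneg {E : Set ℂ} {q γ : ℝ} (h : TwoSided E q γ) : 0 ≤ γ := by
  obtain ⟨_, _, B, ρ, -, h1, -⟩ := h 0 1 one_pos
  exact (Finset.sum_nonneg fun b _ => norm_nonneg (ρ b)).trans h1

/-- **Zero-one law.** -/
theorem good_zero {E : Set ℂ} (hE : E ⊆ sphere 0 1) {Q γ : ℝ} (hA : TwoSided E Q γ) (hγ : γ < 1) :
    Good E Q 0 := by
  have hγ0 := twoSided_nonneg hA
  have hGood : ∀ T : ℕ, Good E Q (γ ^ T) := by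
    intro T
    induction T with
    | zero => simpa using good_one E _
    | succ T ih =>
      have := good_step hE hA hγ (pow_nonneg hγ0 T) ih
      rwa [← pow_succ'] at this
  intro q hq hqQ N ε hε
  obtain ⟨T, hT⟩ := exists_pow_lt_of_lt_one (half_pos hε) hγ
  obtain ⟨S, c, hS, hc⟩ := hGood T q hq hqQ N (ε / 2) (half_pos hε)
  refine ⟨S, c, hS, fun z hz => ?_⟩
  have := hc z hz
  linarith

/-- **The replacement theorem.** -/
theorem not_sidonOn_of_twoSided {E : Set ℂ} (hE : E ⊆ sphere 0 1) {Q γ : ℝ} (hQ : 1 < Q)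
    (hA : TwoSided E Q γ) (hγ : γ < 1) : ¬ SidonOn E := by
  intro hSid
  have hGood := good_zero hE hA hγ
  set q : ℝ := 1 + (Q - 1) / 3 with hq
  set q' : ℝ := 1 + (Q - 1) / 2 with hq'
  have hq1 : 1 < q := by rw [hq]; linarith
  have hqq' : q < q' := by rw [hq, hq']; linarith
  have hq'Q : q' < Q := by rw [hq']; linarith
  obtain ⟨N, C, hC⟩ := hSid q hq1
  set C' : ℝ := max C 1 with hC'
  have hC1 : 1 ≤ C' := le_max_right _ _
  have hC2 : SidonIneq q N C' E := hC.mono_const (le_max_left _ _)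
  set N' : ℕ := (N + 1) + 1 + ⌈q * ((N + 1 : ℕ) : ℝ)⌉₊ with hN'
  set N'' : ℕ := N' + ⌈(q - 1) * ((N + 1 : ℕ) : ℝ) / (q' - q)⌉₊ with hN''
  obtain ⟨S, c, hS, hc⟩ := hGood q' (hq1.trans hqq') hq'Q N'' (1 / (2 * C')) (by positivity)
  obtain ⟨S₁, c₁, hS₁, hc₁⟩ := lac_shift hqq' hS c ((N + 1 : ℕ) : ℤ) (N' := N') (by
      have h1 : (q - 1) * ((N + 1 : ℕ) : ℝ) / (q' - q) ≤
        (⌈(q - 1) * ((N + 1 : ℕ) : ℝ) / (q' - q)⌉₊ : ℝ) := Nat.le_ceil _
      have h2 : (⌈(q - 1) * ((N + 1 : ℕ) : ℝ) / (q' - q)⌉₊ : ℝ) ≤ N'' := by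
        have : ⌈(q - 1) * ((N + 1 : ℕ) : ℝ) / (q' - q)⌉₊ ≤ N'' := by omega
        exact_mod_cast this
      have h3 := h1.trans h2
      rw [div_le_iff₀ (by linarith)] at h3
      rw [Int.cast_natCast]
      linarith) (by omega) (by omega)
  have hone : LacSet q N (({N + 1} : Finset ℕ) : Set ℕ) := by
    constructor
    · intro m hm
      have : m = N + 1 := by simpa using hm
      omega
    · intro m hm n hn hmn
      have h1 : m = N + 1 := by simpa using hm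
      have h2 : n = N + 1 := by simpa using hn
      omega
  obtain ⟨S₂, c₂, hS₂, hmem, hc₂⟩ := lac_union hone hS₁ (by omega) (fun _ => 1) (fun n => - c₁ n)
    (by
      intro k hk
      have h1 : k = N + 1 := by simpa using hk
      subst h1
      refine ⟨by omega, ?_⟩
      have h3 : q * ((N + 1 : ℕ) : ℝ) ≤ (⌈q * ((N + 1 : ℕ) : ℝ)⌉₊ : ℝ) := Nat.le_ceil _
      have h4 : (⌈q * ((N + 1 : ℕ) : ℝ)⌉₊ : ℝ) ≤ N' := by
        have : ⌈q * ((N + 1 : ℕ) : ℝ)⌉₊ ≤ N' := by omega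
        exact_mod_cast this
      exact h3.trans h4)
  have hbd : ∀ z ∈ E, ‖∑ n ∈ S₂, c₂ n * z ^ n‖ ≤ 1 / (2 * C') := by
    intro z hz
    have hz1 : ‖z‖ = 1 := by simpa using hE hz
    have hz0 : z ≠ 0 := by
      intro h
      rw [h, norm_zero] at hz1
      norm_num at hz1
    have e1 : ∑ n ∈ S₂, c₂ n * z ^ n = z ^ (N + 1) * (1 - ∑ n ∈ S, c n * z ^ n) := by
      have e2 : ∑ n ∈ S₁, -c₁ n * z ^ n = - ∑ n ∈ S₁, c₁ n * z ^ n := by
        rw [← Finset.sum_neg_distrib]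
        exact Finset.sum_congr rfl fun n _ => by ring
      rw [hc₂ z, e2, hc₁ z hz0, Finset.sum_singleton, zpow_natCast]
      ring
    rw [e1, norm_mul, norm_pow, hz1, one_pow, one_mul]
    have h1 := hc z hz
    linarith
  have h1 := hC2 S₂ c₂ (1 / (2 * C')) hS₂ (by positivity) hbd
  have h2 : C' * (1 / (2 * C')) = 1 / 2 := by field_simp
  have h3 : (1 : ℝ) ≤ ∑ n ∈ S₂, ‖c₂ n‖ := by
    obtain ⟨h4, h5⟩ := hmem (N + 1) (by simp)
    calc (1 : ℝ) = ‖c₂ (N + 1)‖ := by rw [h5, norm_one]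
      _ ≤ _ := Finset.single_le_sum (f := fun n => ‖c₂ n‖) (fun _ _ => norm_nonneg _) h4
  linarith

/-- If infinitely many power images of `E` lie in a set off which the constant one is
approximable, then the constant one is approximable on `E`. -/
lemma twoSided_of_approx {E : Set ℂ} {K : Set ℂ} {s : ℕ} {h : ℕ → ℂ} {γ : ℝ}
    (hA : Approx K s h γ) (hm : ∀ N : ℕ, ∃ m ≥ N, ∀ z ∈ E, z ^ m ∈ K) :
    TwoSided E (1 + 1 / ((s : ℝ) + 1)) γ := by
  classical
  intro N ε hε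
  obtain ⟨B, ρ, h1, h2⟩ := hA ε hε
  obtain ⟨m, hmN, hmK⟩ := hm (N + 1)
  have hm0 : 0 < m := by omega
  have hS₀ : LacSet (1 + 1 / ((s : ℝ) + 1)) N
      (((Finset.Icc 1 s).image fun a => a * m : Finset ℕ) : Set ℕ) := by
    constructor
    · intro x hx
      simp only [Finset.coe_image, Set.mem_image, Finset.mem_coe, Finset.mem_Icc] at hx
      obtain ⟨a, ha, rfl⟩ := hx
      have : m ≤ a * m := Nat.le_mul_of_pos_left m (by omega)
      constructor <;> omega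
    · intro x hx y hy hxy
      simp only [Finset.coe_image, Set.mem_image, Finset.mem_coe, Finset.mem_Icc] at hx hy
      obtain ⟨a, ha, rfl⟩ := hx
      obtain ⟨b, hb, rfl⟩ := hy
      have hab : a < b := lt_of_mul_lt_mul_right hxy (Nat.zero_le m)
      have h3 : (a : ℝ) + 1 ≤ b := by exact_mod_cast hab
      have h4 : (b : ℝ) ≤ s := by exact_mod_cast hb.2
      have ha1 : (1 : ℝ) ≤ a := by exact_mod_cast ha.1
      have h5 : (1 + 1 / ((s : ℝ) + 1)) * (a : ℝ) ≤ b := by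
        have h7 : 1 / ((s : ℝ) + 1) * a ≤ 1 := by
          rw [div_mul_eq_mul_div, one_mul, div_le_one (by linarith)]
          linarith
        nlinarith
      push_cast
      have hmR : (0 : ℝ) ≤ m := by positivity
      calc (1 + 1 / ((s : ℝ) + 1)) * ((a : ℝ) * m) = ((1 + 1 / ((s : ℝ) + 1)) * a) * m := by ring
        _ ≤ b * m := mul_le_mul_of_nonneg_right h5 hmR
  have hmz : (m : ℤ) ≠ 0 := by omega
  refine ⟨(Finset.Icc 1 s).image fun a => a * m, fun n => h (n / m),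
    B.image fun b => (m : ℤ) * b, fun b => ρ (b / m), hS₀, ?_, fun z hz => ?_⟩
  · rw [Finset.sum_image (fun a _ b _ hab => mul_left_cancel₀ hmz hab)]
    refine le_trans (le_of_eq ?_) h1
    refine Finset.sum_congr rfl fun b _ => ?_
    beta_reduce
    rw [Int.mul_ediv_cancel_left _ hmz]
  · have e1 : ∑ n ∈ (Finset.Icc 1 s).image (fun a => a * m), h (n / m) * z ^ n =
        ∑ a ∈ Finset.Icc 1 s, h a * (z ^ m) ^ a := by
      rw [Finset.sum_image]
      · refine Finset.sum_congr rfl fun a _ => ?_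
        rw [Nat.mul_div_cancel _ hm0, ← pow_mul, mul_comm a m]
      · intro a _ b _ hab
        exact Nat.eq_of_mul_eq_mul_right hm0 hab
    have e2 : ∑ b ∈ B.image (fun b => (m : ℤ) * b), ρ (b / m) * z ^ b =
        ∑ b ∈ B, ρ b * (z ^ m) ^ b := by
      rw [Finset.sum_image (fun a _ b _ hab => mul_left_cancel₀ hmz hab)]
      refine Finset.sum_congr rfl fun b _ => ?_
      rw [Int.mul_ediv_cancel_left _ hmz, zpow_mul, zpow_natCast]
    rw [e1, e2]
    exact h2 _ (hmK z hz)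

/-- **Sets with infinitely many powers missing a fixed arc fail the Sidon inequalities.** -/
theorem not_sidonOn_of_hset {E : Set ℂ} (hE : E ⊆ sphere 0 1) {z₀ : ℂ} (h0 : ‖z₀‖ = 1) {η : ℝ}
    (hη : 0 < η) (hm : ∀ N : ℕ, ∃ m ≥ N, ∀ z ∈ E, η ≤ ‖z ^ m - z₀‖) : ¬ SidonOn E := by
  obtain ⟨s, h, γ, -, h2, h3⟩ := approx_arc h0 hη
  refine not_sidonOn_of_twoSided hE (Q := 1 + 1 / ((s : ℝ) + 1)) (by
    have : (0 : ℝ) < 1 / ((s : ℝ) + 1) := by positivity
    linarith) (twoSided_of_approx h3 fun N => ?_) h2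
  obtain ⟨m, hmN, hm⟩ := hm N
  refine ⟨m, hmN, fun z hz => ⟨?_, hm z hz⟩⟩
  have hz1 : ‖z‖ = 1 := by simpa using hE hz
  rw [norm_pow, hz1, one_pow]

end Forcing.HS
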