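import Pool.Agent.Lib.MP_c80ac4_an.HS.Four

/-! # Functions with positive frequencies that are small off an arc -/

namespace Forcing.HS

open Complex Filter Topology MeasureTheory Set

/-- `psi r z = 2rz/(1-rz)`, a function without constant term whose real part is the Poisson kernel
minus one. -/
noncomputable def psi (r : ℝ) (z : ℂ) : ℂ := 2 * r * z / (1 - r * z)

lemma one_sub_ne {r : ℝ} (h0 : 0 ≤ r) {z : ℂ} (hz : r * ‖z‖ < 1) : 1 - r * z ≠ 0 := by
  intro h
  have h1 : (r : ℂ) * z = 1 := (sub_eq_zero.1 h).symm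
  have h2 : ‖(r : ℂ) * z‖ = 1 := by rw [h1, norm_one]
  rw [norm_mul, Complex.norm_real, Real.norm_of_nonneg h0] at h2
  linarith

/-- The real part of `psi` on the circle. -/
lemma re_psi {r : ℝ} (h0 : 0 ≤ r) (h1 : r < 1) {z : ℂ} (hz : ‖z‖ = 1) :
    (psi r z).re = (1 - r ^ 2) / ‖1 - r * z‖ ^ 2 - 1 := by
  have hne : 1 - (r : ℂ) * z ≠ 0 := one_sub_ne h0 (by rw [hz]; linarith)
  have e1 : psi r z = (1 + r * z) / (1 - r * z) - 1 := by
    unfold psi
    field_simp
    ring
  have hn : ‖1 - (r : ℂ) * z‖ ≠ 0 := norm_ne_zero_iff.2 hne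
  have e2 : ((1 + (r : ℂ) * z) / (1 - r * z)).re = (1 - r ^ 2) / ‖1 - r * z‖ ^ 2 := by
    have hz2 : z.re ^ 2 + z.im ^ 2 = 1 := by
      have := Complex.sq_norm z
      rw [hz, Complex.normSq_apply] at this
      nlinarith
    rw [Complex.div_re, ← Complex.sq_norm, ← add_div]
    congr 1
    simp
    nlinarith
  rw [e1, Complex.sub_re, e2, Complex.one_re]

/-- If `r` is close to one the real part is at most `-1/2` away from the point `1`. -/
lemma re_psi_le {η : ℝ} (hη : 0 < η) (hη1 : η ≤ 1) {z : ℂ} (hz : ‖z‖ = 1)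
    (hz1 : η / 2 ≤ ‖z - 1‖) : (psi (1 - η ^ 2 / 64) z).re ≤ -1 / 2 := by
  set r : ℝ := 1 - η ^ 2 / 64 with hr
  have hη2 : η ^ 2 ≤ η := by nlinarith
  have h0 : 0 ≤ r := by rw [hr]; nlinarith
  have h1 : r < 1 := by rw [hr]; nlinarith [sq_pos_of_pos hη]
  rw [re_psi h0 h1 hz]
  have h2 : η / 4 ≤ ‖1 - (r : ℂ) * z‖ := by
    have h3 : z - 1 = -(1 - (r : ℂ) * z) + (1 - r : ℝ) * z := by push_cast; ring
    have h4 : ‖z - 1‖ ≤ ‖1 - (r : ℂ) * z‖ + (1 - r) := by
      calc ‖z - 1‖ ≤ ‖-(1 - (r : ℂ) * z)‖ + ‖((1 - r : ℝ) : ℂ) * z‖ := by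
            rw [h3]; exact norm_add_le _ _
        _ = ‖1 - (r : ℂ) * z‖ + (1 - r) := by
            rw [norm_neg, norm_mul, hz, mul_one, Complex.norm_real,
              Real.norm_of_nonneg (by linarith)]
    have h5 : 1 - r ≤ η / 4 := by rw [hr]; nlinarith
    linarith
  have h6 : (1 - r ^ 2) / ‖1 - (r : ℂ) * z‖ ^ 2 ≤ 1 / 2 := by
    have h7 : 0 < ‖1 - (r : ℂ) * z‖ := by linarith
    rw [div_le_iff₀ (by positivity)]
    have h8 : (η / 4) ^ 2 ≤ ‖1 - (r : ℂ) * z‖ ^ 2 := by gcongr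
    have h9 : 1 - r ^ 2 ≤ 2 * (1 - r) := by nlinarith
    have h10 : 2 * (1 - r) = η ^ 2 / 32 := by rw [hr]; ring
    nlinarith
  linarith

/-- The function `exp (M psi)` is the sum of an absolutely convergent power series with constant
term `1` on the closed disc. -/
lemma exp_psi_series {r : ℝ} (h0 : 0 < r) (h1 : r < 1) (M : ℝ) :
    ∃ f : ℕ → ℂ, f 0 = 1 ∧ (Summable fun n => ‖f n‖) ∧
      ∀ z : ℂ, ‖z‖ = 1 → HasSum (fun n => f n * z ^ n) (Complex.exp (M * psi r z)) := by
  set F : ℂ → ℂ := fun z => Complex.exp (M * psi r z) with hF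
  set R : NNReal := ⟨(1 + 1 / r) / 2, by positivity⟩ with hR
  have hRr : (R : ℝ) = (1 + 1 / r) / 2 := rfl
  have hR1 : 1 < (R : ℝ) := by
    rw [hRr]
    have : 1 < 1 / r := by rw [lt_div_iff₀ h0]; linarith
    linarith
  have hR2 : r * (R : ℝ) < 1 := by
    rw [hRr]
    have : r * ((1 + 1 / r) / 2) = (r + 1) / 2 := by field_simp
    rw [this]
    linarith
  have hdiff : DifferentiableOn ℂ F (Metric.closedBall 0 R) := by
    intro z hz
    have hz' : ‖z‖ ≤ R := by simpa using hz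
    have hne : 1 - (r : ℂ) * z ≠ 0 := one_sub_ne h0.le (by nlinarith [norm_nonneg z])
    refine DifferentiableAt.differentiableWithinAt ?_
    have : DifferentiableAt ℂ (fun z => psi r z) z := by
      unfold psi
      refine DifferentiableAt.div (by fun_prop) (by fun_prop) hne
    exact (this.const_mul (M : ℂ)).cexp
  have hRpos : 0 < R := by
    have : (0 : ℝ) < R := by linarith
    exact_mod_cast this
  have hs := hdiff.hasFPowerSeriesOnBall hRpos
  set p := cauchyPowerSeries F 0 R with hp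
  refine ⟨fun n => p.coeff n, ?_, ?_, fun z hz => ?_⟩
  · have h2 := hs.coeff_zero 1
    change p 0 1 = 1
    rw [h2]
    simp [hF, psi]
  · have h4 : ((1 : NNReal) : ENNReal) < p.radius := by
      refine lt_of_lt_of_le ?_ hs.r_le
      exact_mod_cast hR1
    have h5 := p.summable_norm_mul_pow h4
    refine h5.congr fun n => ?_
    simp
  · have hz2 : z ∈ Metric.eball (0 : ℂ) R := by
      rw [Metric.mem_eball, edist_zero_right]
      rw [← ofReal_norm_eq_enorm, hz]
      rw [ENNReal.ofReal_one]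
      exact_mod_cast hR1
    have h6 := hs.hasSum hz2
    rw [zero_add] at h6
    have h7 : (fun n => p.coeff n * z ^ n) = fun n => p n fun _ => z := by
      funext n
      rw [FormalMultilinearSeries.apply_eq_pow_smul_coeff, smul_eq_mul, mul_comm]
    simp only
    rw [h7]
    exact h6

end Forcing.HS
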