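import Pool.Agent.Lib.MP_c80ac4_an.HS.Arc

/-! # Cutting off an exponential: small absolutely convergent Fourier series -/

namespace Forcing.HS

open Complex Filter Topology MeasureTheory Set

lemma periodic_deriv {f : ℝ → ℂ} {c : ℝ} (h : Function.Periodic f c) :
    Function.Periodic (deriv f) c := by
  intro x
  have : (fun y => f (y + c)) = f := funext h
  conv_rhs => rw [← this]
  rw [deriv_comp_add_const]

lemma bdd_of_periodic {f : ℝ → ℂ} {c : ℝ} (hc : c ≠ 0) (h : Function.Periodic f c)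
    (hf : Continuous f) : ∃ A : ℝ, ∀ t, ‖f t‖ ≤ A := by
  obtain ⟨A, hA⟩ := (h.isBounded_of_continuous hc hf).exists_norm_le
  exact ⟨A, fun t => hA _ ⟨t, rfl⟩⟩

lemma diff_of_contDiff {f : ℝ → ℂ} (h : ContDiff ℝ 2 f) :
    Differentiable ℝ f ∧ Differentiable ℝ (deriv f) ∧ Continuous (deriv (deriv f)) := by
  have h1 : ContDiff ℝ (1 + 1) f := by simpa [one_add_one_eq_two] using h
  have h2 := (contDiff_succ_iff_deriv.1 h1).2.2
  have h3 : ContDiff ℝ (0 + 1) (deriv f) := by simpa using h2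
  have h4 := (contDiff_succ_iff_deriv.1 h3).2.2
  exact ⟨h.differentiable (by norm_num), h2.differentiable (by norm_num), h4.continuous⟩

theorem exists_cut {χ p : ℝ → ℂ} (hχ : ContDiff ℝ 2 χ) (hp : ContDiff ℝ 2 p)
    (hχp : Function.Periodic χ (2 * Real.pi)) (hpp : Function.Periodic p (2 * Real.pi))
    (h : ∀ t, (p t).re ≤ -1 / 2 ∨ (χ t = 0 ∧ deriv χ t = 0 ∧ deriv (deriv χ) t = 0))
    {δ : ℝ} (hδ : 0 < δ) :
    ∃ M : ℝ, ∃ c : ℤ → ℂ, Summable (fun n => ‖c n‖) ∧ ∑' n, ‖c n‖ ≤ δ ∧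
      ∀ t : ℝ, HasSum (fun n => c n * Complex.exp (t * I) ^ n) (χ t * Complex.exp (M * p t)) := by
  obtain ⟨hχ1, hχ2, hχ3⟩ := diff_of_contDiff hχ
  obtain ⟨hp1, hp2, hp3⟩ := diff_of_contDiff hp
  have hpi : (2 * Real.pi : ℝ) ≠ 0 := by positivity
  obtain ⟨A1, hA1⟩ := bdd_of_periodic hpi hχp hχ1.continuous
  obtain ⟨A2, hA2⟩ := bdd_of_periodic hpi (periodic_deriv hχp) hχ2.continuous
  obtain ⟨A3, hA3⟩ := bdd_of_periodic hpi (periodic_deriv (periodic_deriv hχp)) hχ3
  obtain ⟨A4, hA4⟩ := bdd_of_periodic hpi (periodic_deriv hpp) hp2.continuous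
  obtain ⟨A5, hA5⟩ := bdd_of_periodic hpi (periodic_deriv (periodic_deriv hpp)) hp3
  obtain ⟨A, hA, k1, k2, k3, k4, k5⟩ : ∃ A : ℝ, 1 ≤ A ∧ A1 ≤ A ∧ A2 ≤ A ∧ A3 ≤ A ∧ A4 ≤ A ∧
      A5 ≤ A := by
    refine ⟨max 1 (max A1 (max A2 (max A3 (max A4 A5)))), ?_, ?_, ?_, ?_, ?_, ?_⟩ <;> simp
  -- choice of M
  obtain ⟨x, hx1, hx2⟩ : ∃ x : ℝ, 1 ≤ x ∧ x ^ 2 * Real.exp (-x) < δ / (20 * A ^ 3 * WT) := by
    have h1 := (Real.tendsto_pow_mul_exp_neg_atTop_nhds_zero 2).eventually_lt_const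
      (show (0 : ℝ) < δ / (20 * A ^ 3 * WT) by have := WT_pos; positivity)
    obtain ⟨x, hx⟩ := (h1.and (eventually_ge_atTop (1 : ℝ))).exists
    exact ⟨x, hx.2, hx.1⟩
  set M : ℝ := 2 * x with hM
  set g : ℝ → ℂ := fun t => χ t * Complex.exp (M * p t) with hg
  set g1 : ℝ → ℂ := fun t => (deriv χ t + χ t * (M * deriv p t)) * Complex.exp (M * p t) with hg1
  set g2 : ℝ → ℂ := fun t => (deriv (deriv χ) t + deriv χ t * (M * deriv p t) +
    (deriv χ t * (M * deriv p t) + χ t * (M * deriv (deriv p) t)) +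
    χ t * (M * deriv p t) * (M * deriv p t)) * Complex.exp (M * p t) with hg2
  have hder : ∀ t, HasDerivAt (fun t => Complex.exp (M * p t))
      (Complex.exp (M * p t) * (M * deriv p t)) t := fun t =>
    ((hp1 t).hasDerivAt.const_mul (M : ℂ)).cexp
  have d1 : ∀ t, HasDerivAt g (g1 t) t := by
    intro t
    have := (hχ1 t).hasDerivAt.fun_mul (hder t)
    refine this.congr_deriv ?_
    simp only [hg1]
    ring
  have d2 : ∀ t, HasDerivAt g1 (g2 t) t := by
    intro t
    have e1 : HasDerivAt (fun t => deriv χ t + χ t * (M * deriv p t))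
        (deriv (deriv χ) t + (deriv χ t * (M * deriv p t) + χ t * (M * deriv (deriv p) t))) t :=
      (hχ2 t).hasDerivAt.add ((hχ1 t).hasDerivAt.mul ((hp2 t).hasDerivAt.const_mul (M : ℂ)))
    have := e1.fun_mul (hder t)
    refine this.congr_deriv ?_
    simp only [hg2]
    ring
  have hgc : Continuous g2 := by
    rw [hg2]
    have c1 := hχ1.continuous
    have c2 := hχ2.continuous
    have c3 := hp1.continuous
    have c4 := hp2.continuous
    fun_prop
  have per1 : Function.Periodic g (2 * Real.pi) := fun t => by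
    simp only [hg, hχp t, hpp t]
  have per2 : Function.Periodic g1 (2 * Real.pi) := fun t => by
    simp only [hg1, hχp t, hpp t, periodic_deriv hχp t, periodic_deriv hpp t]
  have hexp : ∀ t, (p t).re ≤ -1 / 2 → ‖Complex.exp (M * p t)‖ ≤ Real.exp (-x) := by
    intro t ht
    rw [Complex.norm_exp]
    apply Real.exp_le_exp.2
    rw [Complex.re_ofReal_mul, hM]
    nlinarith
  have hx0 : 0 < x := by linarith
  have hM1 : 1 ≤ M := by rw [hM]; linarith
  have hMn : ‖(M : ℂ)‖ = M := by rw [Complex.norm_real, Real.norm_of_nonneg (by linarith)]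
  have hAM : A ≤ 5 * M ^ 2 * A ^ 3 := by
    have : 1 ≤ M ^ 2 := one_le_pow₀ hM1
    have h3 : A ≤ A ^ 3 := by nlinarith [sq_nonneg A]
    nlinarith [pow_pos (by linarith : (0:ℝ) < A) 3]
  have b1 : ∀ t, ‖g t‖ ≤ 5 * M ^ 2 * A ^ 3 * Real.exp (-x) := by
    intro t
    rcases h t with ht | ⟨ht, -, -⟩
    · calc ‖g t‖ = ‖χ t‖ * ‖Complex.exp (M * p t)‖ := norm_mul _ _
        _ ≤ A * Real.exp (-x) := by
          gcongr
          · exact (hA1 t).trans k1
          · exact hexp t ht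
        _ ≤ _ := by gcongr
    · have : g t = 0 := by rw [hg]; simp [ht]
      rw [this, norm_zero]
      positivity
  have b2 : ∀ t, ‖g2 t‖ ≤ 5 * M ^ 2 * A ^ 3 * Real.exp (-x) := by
    intro t
    rcases h t with ht | ⟨ht1, ht2, ht3⟩
    · have n1 := (hA1 t).trans k1
      have n2 := (hA2 t).trans k2
      have n3 := (hA3 t).trans k3
      have n4 := (hA4 t).trans k4
      have n5 := (hA5 t).trans k5
      have hA0 : 0 ≤ A := by linarith
      have hM0 : 0 ≤ M := by linarith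
      have m1 : ‖(M : ℂ) * deriv p t‖ ≤ M * A := by
        rw [norm_mul, hMn]; gcongr
      have m2 : ‖(M : ℂ) * deriv (deriv p) t‖ ≤ M * A := by
        rw [norm_mul, hMn]; gcongr
      have q1 : ‖deriv χ t * (M * deriv p t)‖ ≤ A * (M * A) := by
        rw [norm_mul]; gcongr
      have q2 : ‖χ t * (M * deriv (deriv p) t)‖ ≤ A * (M * A) := by
        rw [norm_mul]; gcongr
      have q3 : ‖χ t * (M * deriv p t) * (M * deriv p t)‖ ≤ A * (M * A) * (M * A) := by
        rw [norm_mul, norm_mul]; gcongr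
      have q4 : ‖deriv (deriv χ) t + deriv χ t * (M * deriv p t) +
          (deriv χ t * (M * deriv p t) + χ t * (M * deriv (deriv p) t)) +
          χ t * (M * deriv p t) * (M * deriv p t)‖ ≤
          A + A * (M * A) + (A * (M * A) + A * (M * A)) + A * (M * A) * (M * A) := by
        refine (norm_add_le _ _).trans (add_le_add ((norm_add_le _ _).trans
          (add_le_add ((norm_add_le _ _).trans (add_le_add n3 q1))
            ((norm_add_le _ _).trans (add_le_add q1 q2)))) q3)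
      have q5 : A + A * (M * A) + (A * (M * A) + A * (M * A)) + A * (M * A) * (M * A) ≤
          5 * M ^ 2 * A ^ 3 := by
        have z1 : 1 ≤ M ^ 2 := one_le_pow₀ hM1
        have z2 : A ≤ A ^ 3 := by nlinarith [sq_nonneg A]
        have z3 : A ^ 2 ≤ A ^ 3 := pow_le_pow_right₀ hA (by norm_num)
        have z4 : M ≤ M ^ 2 := by nlinarith
        have z5 : A * (M * A) ≤ M ^ 2 * A ^ 3 := by
          calc A * (M * A) = M * A ^ 2 := by ring
            _ ≤ M ^ 2 * A ^ 3 := by gcongr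
        have z6 : A * (M * A) * (M * A) = M ^ 2 * A ^ 3 := by ring
        have z7 : A ≤ M ^ 2 * A ^ 3 := by nlinarith [pow_pos (by linarith : (0:ℝ) < A) 3]
        linarith
      calc ‖g2 t‖ = ‖deriv (deriv χ) t + deriv χ t * (M * deriv p t) +
          (deriv χ t * (M * deriv p t) + χ t * (M * deriv (deriv p) t)) +
          χ t * (M * deriv p t) * (M * deriv p t)‖ * ‖Complex.exp (M * p t)‖ := norm_mul _ _
        _ ≤ 5 * M ^ 2 * A ^ 3 * Real.exp (-x) := by
          gcongr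
          · exact q4.trans q5
          · exact hexp t ht
    · have : g2 t = 0 := by rw [hg2]; simp [ht1, ht2, ht3]
      rw [this, norm_zero]
      positivity
  obtain ⟨c, hc1, hc2, hc3⟩ := exists_fourier per1 per2 d1 d2 hgc b1 b2
  refine ⟨M, c, hc1, hc2.trans ?_, hc3⟩
  have hW := WT_pos
  rw [lt_div_iff₀ (by positivity)] at hx2
  have : WT * (5 * M ^ 2 * A ^ 3 * Real.exp (-x)) = x ^ 2 * Real.exp (-x) * (20 * A ^ 3 * WT) := by
    rw [hM]; ring
  linarith

end Forcing.HS
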