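import Mathlib

/-! # Absolutely convergent Fourier series of twice differentiable functions -/

namespace Forcing.HS

open Complex Filter Topology MeasureTheory Set

/-- The summable weight `1, 1, 1/4, 1/9, ...` on the integers. -/
noncomputable def wt (n : ℤ) : ℝ := 1 / (n : ℝ) ^ 2 + if n = 0 then 1 else 0

lemma summable_wt : Summable wt := by
  refine Summable.add ((Real.summable_one_div_int_pow (p := 2)).2 (by norm_num)) ?_
  exact (hasSum_ite_eq (0 : ℤ) (1 : ℝ)).summable

/-- The sum of the weight. -/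
noncomputable def WT : ℝ := ∑' n, wt n

lemma wt_nonneg (n : ℤ) : 0 ≤ wt n := by
  unfold wt
  split_ifs <;> positivity

lemma WT_pos : 0 < WT := by
  refine lt_of_lt_of_le one_pos ?_
  have h := summable_wt.le_tsum (0 : ℤ) fun j _ => wt_nonneg j
  have h0 : wt 0 = 1 := by simp [wt]
  rw [h0] at h
  exact h

/-- Bound of a Fourier coefficient by the supremum. -/
lemma norm_coeffOn_le {a b : ℝ} (hab : a < b) {f : ℝ → ℂ} {A : ℝ} (hA : ∀ t, ‖f t‖ ≤ A) (n : ℤ) :
    ‖fourierCoeffOn hab f n‖ ≤ A := by
  have hT : Fact (0 < b - a) := ⟨by linarith⟩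
  rw [fourierCoeffOn_eq_integral, norm_smul, Real.norm_of_nonneg (by
    have := hT.out
    positivity)]
  have h1 : ‖∫ x in a..b, fourier (-n) (x : AddCircle (b - a)) • f x‖ ≤ A * |b - a| := by
    refine intervalIntegral.norm_integral_le_of_norm_le_const fun x _ => ?_
    rw [norm_smul]
    have h2 : ‖(fourier (-n) : C(AddCircle (b - a), ℂ)) (x : AddCircle (b - a))‖ ≤ 1 := by
      have h3 := (fourier (-n) : C(AddCircle (b - a), ℂ)).norm_coe_le_norm (x : AddCircle (b - a))
      rwa [fourier_norm] at h3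
    calc _ ≤ 1 * ‖f x‖ := by gcongr
      _ ≤ A := by rw [one_mul]; exact hA x
  rw [abs_of_pos hT.out] at h1
  calc 1 / (b - a) * ‖∫ x in a..b, fourier (-n) (x : AddCircle (b - a)) • f x‖
      ≤ 1 / (b - a) * (A * (b - a)) := by
        have := hT.out
        gcongr
    _ = A := by
        have := hT.out.ne'
        field_simp

/-- A `2π`-periodic function with a bounded second derivative has an absolutely convergent Fourier
series. -/
theorem exists_fourier {g g1 g2 : ℝ → ℂ} (hper : Function.Periodic g (2 * Real.pi))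
    (hper1 : Function.Periodic g1 (2 * Real.pi)) (h1 : ∀ t, HasDerivAt g (g1 t) t)
    (h2 : ∀ t, HasDerivAt g1 (g2 t) t) (hc : Continuous g2) {A : ℝ} (hA : ∀ t, ‖g t‖ ≤ A)
    (hA2 : ∀ t, ‖g2 t‖ ≤ A) :
    ∃ c : ℤ → ℂ, Summable (fun n => ‖c n‖) ∧ ∑' n, ‖c n‖ ≤ WT * A ∧
      ∀ t : ℝ, HasSum (fun n => c n * Complex.exp (t * I) ^ n) (g t) := by
  have hT : Fact (0 < 2 * Real.pi) := ⟨by positivity⟩
  have hcg : Continuous g := continuous_iff_continuousAt.2 fun t => (h1 t).continuousAt
  have hcg1 : Continuous g1 := continuous_iff_continuousAt.2 fun t => (h2 t).continuousAt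
  set f : C(AddCircle (2 * Real.pi), ℂ) := ⟨AddCircle.liftIco (2 * Real.pi) 0 g,
    AddCircle.liftIco_continuous (by simpa using (hper 0).symm) hcg.continuousOn⟩ with hf
  have hfc : ∀ n, fourierCoeff f n = fourierCoeffOn (lt_add_of_pos_right 0 hT.out) g n :=
    fun n => fourierCoeff_liftIco_eq g n
  have hbound : ∀ n, ‖fourierCoeff f n‖ ≤ wt n * A := by
    intro n
    by_cases hn : n = 0
    · rw [hfc, hn]
      refine (norm_coeffOn_le _ hA 0).trans (le_of_eq ?_)
      simp [wt]
    · have e1 : fourierCoeffOn (lt_add_of_pos_right 0 hT.out) g n =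
          1 / (-2 * Real.pi * I * n) * (-(2 * Real.pi : ℂ)) *
            fourierCoeffOn (lt_add_of_pos_right 0 hT.out) g1 n := by
        rw [fourierCoeffOn_of_hasDerivAt (lt_add_of_pos_right 0 hT.out) hn (fun x _ => h1 x)
          (hcg1.intervalIntegrable _ _)]
        rw [hper 0]
        push_cast
        ring
      have e2 : fourierCoeffOn (lt_add_of_pos_right 0 hT.out) g1 n =
          1 / (-2 * Real.pi * I * n) * (-(2 * Real.pi : ℂ)) *
            fourierCoeffOn (lt_add_of_pos_right 0 hT.out) g2 n := by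
        rw [fourierCoeffOn_of_hasDerivAt (lt_add_of_pos_right 0 hT.out) hn (fun x _ => h2 x)
          (hc.intervalIntegrable _ _)]
        rw [hper1 0]
        push_cast
        ring
      have hn' : (n : ℂ) ≠ 0 := by exact_mod_cast hn
      have hpi : (Real.pi : ℂ) ≠ 0 := by exact_mod_cast Real.pi_ne_zero
      have e3 : 1 / (-2 * Real.pi * I * n) * (-(2 * Real.pi : ℂ)) = 1 / (I * n) := by
        field_simp
      rw [hfc, e1, e2, e3, norm_mul, norm_mul]
      have e4 : ‖(1 : ℂ) / (I * n)‖ = 1 / |(n : ℝ)| := by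
        rw [norm_div, norm_mul, norm_one, Complex.norm_I, one_mul]
        rw [Complex.norm_intCast]
      rw [e4]
      have h5 := norm_coeffOn_le (lt_add_of_pos_right 0 hT.out) hA2 n
      have h6 : wt n = 1 / |(n : ℝ)| * (1 / |(n : ℝ)|) := by
        rw [wt, if_neg hn, add_zero, ← sq_abs]
        field_simp
      rw [h6, mul_assoc]
      gcongr
  have hsum : Summable fun n => ‖fourierCoeff f n‖ :=
    Summable.of_nonneg_of_le (fun _ => norm_nonneg _) hbound (summable_wt.mul_right A)
  refine ⟨fun n => fourierCoeff f n, hsum, ?_, fun t => ?_⟩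
  · calc ∑' n, ‖fourierCoeff f n‖ ≤ ∑' n, wt n * A :=
        hsum.tsum_le_tsum hbound (summable_wt.mul_right A)
      _ = WT * A := tsum_mul_right
  · have h7 := has_pointwise_sum_fourier_series_of_summable (f := f) hsum.of_norm
      (t : AddCircle (2 * Real.pi))
    have h8 : f (t : AddCircle (2 * Real.pi)) = g t := by
      rw [hf]
      change AddCircle.liftIco (2 * Real.pi) 0 g (t : AddCircle (2 * Real.pi)) = g t
      obtain ⟨u, hu, hu2⟩ : ∃ u ∈ Ico (0 : ℝ) (0 + 2 * Real.pi), ∃ k : ℤ, t = u + k * (2 * Real.pi) := by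
        refine ⟨toIcoMod hT.out 0 t, toIcoMod_mem_Ico hT.out 0 t, toIcoDiv hT.out 0 t, ?_⟩
        have := toIcoMod_add_toIcoDiv_zsmul hT.out 0 t
        rw [zsmul_eq_mul] at this
        exact this.symm
      obtain ⟨k, hk⟩ := hu2
      have h9 : (t : AddCircle (2 * Real.pi)) = (u : AddCircle (2 * Real.pi)) := by
        rw [hk]
        have : ((u + k * (2 * Real.pi) : ℝ) : AddCircle (2 * Real.pi)) =
            (u : AddCircle (2 * Real.pi)) + ((k • (2 * Real.pi) : ℝ) : AddCircle (2 * Real.pi)) := by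
          rw [zsmul_eq_mul]; rfl
        rw [this, AddCircle.coe_zsmul, AddCircle.coe_period, zsmul_zero, add_zero]
      rw [h9, AddCircle.liftIco_coe_apply hu, hk]
      have := hper.int_mul k u
      rw [← this]
    rw [h8] at h7
    have h10 : (fun n : ℤ => fourierCoeff f n * Complex.exp (t * I) ^ n) =
        fun n : ℤ => fourierCoeff f n • (fourier n (t : AddCircle (2 * Real.pi)) : ℂ) := by
      funext n
      rw [smul_eq_mul, fourier_coe_apply, ← Complex.exp_int_mul]
      congr 2
      push_cast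
      have hpi : (Real.pi : ℂ) ≠ 0 := by exact_mod_cast Real.pi_ne_zero
      field_simp
    rw [h10]
    exact h7

end Forcing.HS
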